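import Pool.Agent.H53.RY.Hyper

/-!
Weighted Andrasfai-Erdos-Sos theorem (Brandt's proof, with the five wheels of Mathlib) and the
bound for hypergraphs with few disjoint edges.
-/

set_option autoImplicit false

namespace H53.RY

open Finset SimpleGraph

open Classical in
theorem wheel_count {V : Type*} [Fintype V] (G : SimpleGraph V) (w : V → ℝ) (hw : ∀ x, 0 ≤ w x)
    {r k : ℕ} {v w₁ w₂ : V} {s t : Finset V} (hW : G.IsFiveWheelLike r k v w₁ w₂ s t)
    (hcf : G.CliqueFree (r + 2)) (hm : G.FiveWheelLikeFree r (k + 1)) (δ : ℝ)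
    (hδ : ∀ x, δ < ∑ y ∈ univ.filter (fun y => G.Adj x y), w y) :
    (2 * r + k + 3) * δ < (2 * r + k) * ∑ y, w y := by
  set W : Finset V := {v} ∪ ({w₁} ∪ ({w₂} ∪ (s ∪ t))) with hWdef
  have hWc : W.card + k = 2 * r + 3 := by
    have h1 := hW.card_inter
    have h2 := hW.card_left
    have h3 := hW.card_right
    have h4 := card_union_add_card_inter s t
    have h5 : v ∉ s ∪ t := by
      simp only [mem_union, not_or]; exact ⟨hW.notMem_left, hW.notMem_right⟩
    have h6 : w₁ ∉ s ∪ t := by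
      simp only [mem_union, not_or]; exact ⟨hW.fst_notMem, hW.fst_notMem_right⟩
    have h7 : w₂ ∉ s ∪ t := by
      simp only [mem_union, not_or]; exact ⟨hW.snd_notMem_left, hW.snd_notMem⟩
    have h8 := hW.isPathGraph3Compl.ne_fst
    have h9 := hW.isPathGraph3Compl.ne_snd
    have h10 := hW.isPathGraph3Compl.fst_ne_snd
    have e1 : W = insert v (insert w₁ (insert w₂ (s ∪ t))) := by
      simp only [hWdef, insert_eq]
    rw [e1, card_insert_of_notMem, card_insert_of_notMem, card_insert_of_notMem h7]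
    · omega
    · simp only [mem_insert, not_or]; exact ⟨h10, h6⟩
    · simp only [mem_insert, not_or]; exact ⟨h8, h9, h5⟩
  have hWne : W.Nonempty := ⟨v, by simp [hWdef]⟩
  -- double counting
  have hsum : ∀ U : Finset V, ∑ x ∈ U, ∑ y ∈ univ.filter (fun y => G.Adj x y), w y =
      ∑ y, w y * ((U.filter (fun x => G.Adj y x)).card : ℝ) := by
    intro U
    have h1 : ∀ x ∈ U, ∑ y ∈ univ.filter (fun y => G.Adj x y), w y =
        ∑ y, if G.Adj x y then w y else 0 := fun x _ => by rw [sum_filter]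
    rw [sum_congr rfl h1, sum_comm]
    apply sum_congr rfl
    intro y _
    rw [← sum_filter, sum_const, nsmul_eq_mul, mul_comm]
    congr 3
    ext x
    simp only [mem_filter, G.adj_comm]
  have hpt : ∀ y, (W.filter (fun x => G.Adj y x)).card +
      2 * ((s ∩ t).filter (fun x => G.Adj y x)).card + 3 ≤ 2 * r + k + 3 := by
    intro y
    have hc1 := card_filter_add_card_filter_not (s := W) (fun x => G.Adj y x)
    have hc2 := card_filter_add_card_filter_not (s := s ∩ t) (fun x => G.Adj y x)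
    have hk := hW.card_inter
    by_cases hX : ∀ z ∈ s ∩ t, G.Adj y z
    · have h3 : 3 ≤ (W.filter (fun z => ¬ G.Adj y z)).card := by
        by_contra hlt
        push Not at hlt
        obtain ⟨_, _, hWn⟩ := hW.exists_isFiveWheelLike_succ_of_not_adj_le_two hcf
          (x := y) (fun z hz => hX z hz) (by
            have : (W.filter (fun z => ¬ G.Adj y z)).card ≤ 2 := by omega
            convert this using 3)
        exact hm hWn
      omega
    · push Not at hX
      obtain ⟨z, hz, hyz⟩ := hX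
      have h1 : 1 ≤ ((s ∩ t).filter (fun x => ¬ G.Adj y x)).card :=
        card_pos.2 ⟨z, mem_filter.2 ⟨hz, hyz⟩⟩
      have h2 : 1 ≤ (W.filter (fun x => ¬ G.Adj y x)).card := by
        refine card_pos.2 ⟨z, mem_filter.2 ⟨?_, hyz⟩⟩
        simp only [hWdef, mem_union, mem_singleton]
        exact Or.inr (Or.inr (Or.inr (Or.inl (mem_inter.1 hz).1)))
      omega
  have h1 : ∑ x ∈ W, ∑ y ∈ univ.filter (fun y => G.Adj x y), w y +
      2 * ∑ x ∈ s ∩ t, ∑ y ∈ univ.filter (fun y => G.Adj x y), w y ≤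
      (2 * r + k) * ∑ y, w y := by
    rw [hsum, hsum, mul_sum, ← sum_add_distrib, mul_sum]
    apply sum_le_sum
    intro y _
    have h2 := hpt y
    have h3 : ((W.filter (fun x => G.Adj y x)).card : ℝ) +
        2 * (((s ∩ t).filter (fun x => G.Adj y x)).card : ℝ) ≤ 2 * r + k := by
      have : (W.filter (fun x => G.Adj y x)).card +
        2 * ((s ∩ t).filter (fun x => G.Adj y x)).card ≤ 2 * r + k := by omega
      exact_mod_cast this
    nlinarith [mul_le_mul_of_nonneg_left h3 (hw y)]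
  have h2 : (W.card : ℝ) * δ < ∑ x ∈ W, ∑ y ∈ univ.filter (fun y => G.Adj x y), w y := by
    rw [← nsmul_eq_mul, ← sum_const]
    exact sum_lt_sum_of_nonempty hWne (fun x _ => hδ x)
  have h3 : (k : ℝ) * δ ≤ ∑ x ∈ s ∩ t, ∑ y ∈ univ.filter (fun y => G.Adj x y), w y := by
    rw [← hW.card_inter, ← nsmul_eq_mul, ← sum_const]
    exact sum_le_sum (fun x _ => (hδ x).le)
  have h4 : (W.card : ℝ) + k = 2 * r + 3 := by exact_mod_cast hWc
  have h5 : (2 * (r : ℝ) + k + 3) * δ = W.card * δ + 2 * (k * δ) := by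
    have : (W.card : ℝ) = 2 * r + 3 - k := by linarith
    rw [this]; ring
  rw [h5]
  linarith

open Classical in
/-- weighted Andrasfai-Erdos-Sos theorem -/
theorem weighted_aes {V : Type*} [Fintype V] (G : SimpleGraph V) (w : V → ℝ) (hw : ∀ x, 0 ≤ w x)
    (ν : ℕ) (hf : G.CliqueFree (ν + 1))
    (hd : ∀ x, (3 * (ν : ℝ) - 4) * ∑ y, w y <
      (3 * (ν : ℝ) - 1) * ∑ y ∈ univ.filter (fun y => G.Adj x y), w y) :
    G.Colorable ν := by
  match ν with
  | 0 => exact G.colorable_zero_iff.2 (cliqueFree_one.1 hf)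
  | 1 =>
    rw [cliqueFree_two] at hf
    subst hf
    exact ⟨⟨fun _ => 0, fun h => by simp at h⟩⟩
  | n + 2 =>
    obtain ⟨K, hle, hmcf⟩ := @Finite.exists_le_maximal _ _ _ (fun K => K.CliqueFree (n + 3)) G hf
    apply Colorable.mono_left hle
    by_contra hnotcol
    have hn : ¬ K.IsCompleteMultipartite := fun hc => hnotcol (hc.colorable_of_cliqueFree hmcf.1)
    obtain ⟨k, v, w₁, w₂, s, t, hW, hlt, hm⟩ :=
      exists_max_isFiveWheelLike_of_maximal_cliqueFree_not_isCompleteMultipartite hmcf hn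
    set T := ∑ y, w y with hT
    have hT0 : 0 ≤ T := sum_nonneg (fun y _ => hw y)
    have hpos : (0 : ℝ) < 3 * ((n + 2 : ℕ) : ℝ) - 1 := by
      push_cast
      have : (0 : ℝ) ≤ n := Nat.cast_nonneg _
      linarith
    have hδ : ∀ x, (3 * ((n + 2 : ℕ) : ℝ) - 4) * T / (3 * ((n + 2 : ℕ) : ℝ) - 1) <
        ∑ y ∈ univ.filter (fun y => K.Adj x y), w y := by
      intro x
      rw [div_lt_iff₀ hpos]
      have h1 := hd x
      have h2 : ∑ y ∈ univ.filter (fun y => G.Adj x y), w y ≤
          ∑ y ∈ univ.filter (fun y => K.Adj x y), w y := by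
        apply sum_le_sum_of_subset_of_nonneg
        · intro y hy
          exact mem_filter.2 ⟨mem_univ _, hle (mem_filter.1 hy).2⟩
        · intro y _ _
          exact hw y
      nlinarith
    have h3 := wheel_count K w hw hW hmcf.1 (hm _ (Nat.lt_succ_self _)) _ hδ
    rw [← hT] at h3
    have hk : (k : ℝ) ≤ n := by
      have : k ≤ n := by omega
      exact_mod_cast this
    have hn0 : (0 : ℝ) ≤ n := Nat.cast_nonneg _
    have hk0 : (0 : ℝ) ≤ k := Nat.cast_nonneg _
    rw [mul_div_assoc', div_lt_iff₀ hpos] at h3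
    push_cast at h3
    nlinarith [mul_nonneg hT0 (sub_nonneg.2 hk)]

open Classical in
/-- Theorem B. -/
theorem boundB {r : ℕ} (hr : 2 ≤ r) (H : Finset (Fin r → ℕ)) (hRF : RF (r - 2) H)
    (w : (Fin r → ℕ) → ℝ) (hw : FM H w)
    (hbig : ((nu H : ℝ) - 1 / 3) * r < ∑ e ∈ H, w e) :
    ∑ e ∈ H, w e ≤ ((r : ℝ) - 2) * nu H := by
  have hr0 : 0 < r := by omega
  let G : SimpleGraph H :=
    { Adj := fun e f => ¬ meets e.1 f.1
      symm := ⟨fun e f h h' => h (meets_symm _ _ h')⟩
      loopless := ⟨fun e h => h (meets_refl hr0 _)⟩ }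
  have hadj : ∀ e f : H, G.Adj e f ↔ ¬ meets e.1 f.1 := fun _ _ => Iff.rfl
  have hcf : G.CliqueFree (nu H + 1) := by
    intro S hS
    have h1 : (S.map (Function.Embedding.subtype _)).card ≤ nu H := by
      apply le_nu
      · intro e he
        obtain ⟨x, _, rfl⟩ := mem_map.1 he
        exact x.2
      · intro a ha b hb hab
        obtain ⟨x, hx, rfl⟩ := mem_map.1 ha
        obtain ⟨y, hy, rfl⟩ := mem_map.1 hb
        have hxy : x ≠ y := by rintro rfl; exact hab rfl
        exact hS.1 hx hy hxy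
    rw [card_map, hS.2] at h1
    omega
  have hcol : G.Colorable (nu H) := by
    apply weighted_aes G (fun e => w e.1) (fun e => hw.1 e.1 e.2) (nu H) hcf
    intro x
    have h1 : ∑ y : H, w y.1 = ∑ e ∈ H, w e := sum_coe_sort H w
    have h2 : ∑ y ∈ univ.filter (fun y : H => G.Adj x y), w y.1 =
        ∑ e ∈ H.filter (fun e => ¬ meets x.1 e), w e := by
      rw [sum_filter, sum_filter, ← sum_coe_sort H]
    have h3 := sum_filter_add_sum_filter_not H (fun e => meets x.1 e) w
    have h4 := nbhd_bound hw x.1 x.2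
    have h5 := hw.1 x.1 x.2
    have hr1 : (1 : ℝ) ≤ r := by exact_mod_cast hr0
    rw [h1]
    refine lt_of_lt_of_eq (b := (3 * (nu H : ℝ) - 1) * ∑ e ∈ H.filter (fun e => ¬ meets x.1 e), w e)
      ?_ (by rw [← h2]; congr 1; apply sum_congr _ (fun _ _ => rfl); ext y; simp only [mem_filter])
    have h6 : 0 ≤ ((r : ℝ) - 1) * w x.1 := mul_nonneg (by linarith) h5
    have h7 : ∑ e ∈ H, w e - r ≤ ∑ e ∈ H.filter (fun e => ¬ meets x.1 e), w e := by linarith
    have hν : (1 : ℝ) ≤ nu H := by
      have : 1 ≤ nu H := by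
        have h8 := le_nu (H := H) (S := {x.1}) (singleton_subset_iff.2 x.2) (by
          intro a ha b hb hab
          rw [mem_singleton.1 ha, mem_singleton.1 hb] at hab
          exact absurd rfl hab)
        simpa using h8
      exact_mod_cast this
    nlinarith
  obtain ⟨c⟩ := hcol
  have hclass : ∀ j : Fin (nu H), ∑ e ∈ univ.filter (fun e : H => c e = j), w e.1 ≤ (r : ℝ) - 2 := by
    intro j
    set F : Finset (Fin r → ℕ) := (univ.filter (fun e : H => c e = j)).map
      (Function.Embedding.subtype _) with hF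
    have hFH : F ⊆ H := by
      intro e he
      obtain ⟨x, _, rfl⟩ := mem_map.1 he
      exact x.2
    obtain ⟨C, hCc, hC⟩ := hRF F hFH (by
      intro a ha b hb
      obtain ⟨x, hx, rfl⟩ := mem_map.1 ha
      obtain ⟨y, hy, rfl⟩ := mem_map.1 hb
      by_contra hxy
      have := c.valid (v := x) (w := y) hxy
      exact this (((mem_filter.1 hx).2).trans ((mem_filter.1 hy).2).symm))
    have h1 := sum_le_cover hw hFH C hC
    have h2 : (C.card : ℝ) ≤ (r : ℝ) - 2 := by
      have : (C.card : ℝ) ≤ ((r - 2 : ℕ) : ℝ) := by exact_mod_cast hCc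
      rw [Nat.cast_sub (by omega)] at this
      simpa using this
    rw [hF, sum_map] at h1
    exact h1.trans h2
  calc ∑ e ∈ H, w e = ∑ e : H, w e.1 := (sum_coe_sort H w).symm
    _ = ∑ j : Fin (nu H), ∑ e ∈ univ.filter (fun e : H => c e = j), w e.1 :=
        (sum_fiberwise univ c (fun e : H => w e.1)).symm
    _ ≤ ∑ j : Fin (nu H), ((r : ℝ) - 2) := sum_le_sum (fun j _ => hclass j)
    _ = ((r : ℝ) - 2) * nu H := by
        rw [sum_const, card_univ, Fintype.card_fin, nsmul_eq_mul, mul_comm]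

end H53.RY
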