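import Mathlib

/-!
Basic optimal solutions of the fractional matching problem.
-/

set_option autoImplicit false

namespace H53.RY

open Finset

section

variable {E C : Type*} [Fintype E] [Fintype C]

/-- the polytope of fractional matchings -/
def poly (a : C → E → ℝ) : Set (E → ℝ) :=
  {w | (∀ e, 0 ≤ w e) ∧ ∀ c, ∑ e, a c e * w e ≤ 1}

omit [Fintype C] in
theorem poly_convex (a : C → E → ℝ) : Convex ℝ (poly a) := by
  intro x hx y hy s t hs ht hst
  refine ⟨fun e => ?_, fun c => ?_⟩
  · simp only [Pi.add_apply, Pi.smul_apply, smul_eq_mul]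
    have := mul_nonneg hs (hx.1 e)
    have := mul_nonneg ht (hy.1 e)
    linarith
  · have h1 : ∑ e, a c e * (s • x + t • y) e =
        s * ∑ e, a c e * x e + t * ∑ e, a c e * y e := by
      simp only [Pi.add_apply, Pi.smul_apply, smul_eq_mul, mul_sum, ← sum_add_distrib]
      exact sum_congr rfl (fun e _ => by ring)
    rw [h1]
    have := mul_le_mul_of_nonneg_left (hx.2 c) hs
    have := mul_le_mul_of_nonneg_left (hy.2 c) ht
    linarith

omit [Fintype C] in
theorem poly_compact (a : C → E → ℝ) (ha0 : ∀ c e, 0 ≤ a c e) (hb : ∀ e, ∃ c, a c e = 1) :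
    IsCompact (poly a) := by
  have hsub : poly a ⊆ Set.Icc (0 : E → ℝ) 1 := by
    intro w hw
    refine ⟨fun e => hw.1 e, fun e => ?_⟩
    obtain ⟨c, hc⟩ := hb e
    have h1 := hw.2 c
    have h2 : a c e * w e ≤ ∑ e, a c e * w e :=
      single_le_sum (f := fun e => a c e * w e) (fun e _ => mul_nonneg (ha0 c e) (hw.1 e))
        (mem_univ e)
    rw [hc, one_mul] at h2
    exact h2.trans h1
  apply IsCompact.of_isClosed_subset isCompact_Icc _ hsub
  have e1 : poly a = (⋂ e, {w : E → ℝ | 0 ≤ w e}) ∩ ⋂ c, {w : E → ℝ | ∑ e, a c e * w e ≤ 1} := by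
    ext w
    simp [poly]
  rw [e1]
  apply IsClosed.inter
  · exact isClosed_iInter (fun e => isClosed_le continuous_const (continuous_apply e))
  · exact isClosed_iInter (fun c => isClosed_le
      (continuous_finsetSum _ (fun e _ => continuous_const.mul (continuous_apply e)))
      continuous_const)

open Classical in
theorem exists_basic (a : C → E → ℝ) (ha0 : ∀ c e, 0 ≤ a c e) (hb : ∀ e, ∃ c, a c e = 1)
    (w0 : E → ℝ) (hw0 : w0 ∈ poly a) :
    ∃ w ∈ poly a, ∑ e, w0 e ≤ ∑ e, w e ∧
      (univ.filter (fun e => w e ≠ 0)).card ≤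
        (univ.filter (fun c => ∑ e, a c e * w e = 1)).card := by
  have hK := poly_compact a ha0 hb
  set l : StrongDual ℝ (E → ℝ) := ∑ e, ContinuousLinearMap.proj e with hl
  have hlw : ∀ w : E → ℝ, l w = ∑ e, w e := by
    intro w
    simp [hl]
  have hF : IsExposed ℝ (poly a) (l.toExposed (poly a)) := ContinuousLinearMap.toExposed.isExposed
  obtain ⟨wm, hwm, hmax⟩ := hK.exists_isMaxOn ⟨w0, hw0⟩ l.continuous.continuousOn
  have hFne : (l.toExposed (poly a)).Nonempty := ⟨wm, hwm, fun y hy => hmax hy⟩
  obtain ⟨w, hw⟩ := (hF.isCompact hK).extremePoints_nonempty hFne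
  have hwF : w ∈ l.toExposed (poly a) := hw.1
  have hwK : w ∈ (poly a).extremePoints ℝ := hF.isExtreme.extremePoints_subset_extremePoints hw
  refine ⟨w, hwF.1, ?_, ?_⟩
  · rw [← hlw, ← hlw]
    exact hwF.2 w0 hw0
  by_contra hlt
  push Not at hlt
  -- the linear map from functions on the support to functions on the tight constraints
  let s := {e : E // w e ≠ 0}
  let T := {c : C // ∑ e, a c e * w e = 1}
  let φ : (s → ℝ) →ₗ[ℝ] (T → ℝ) :=
    { toFun := fun z c => ∑ e : s, a c.1 e.1 * z e
      map_add' := fun x y => by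
        ext c
        simp only [Pi.add_apply, mul_add, sum_add_distrib]
      map_smul' := fun t x => by
        ext c
        simp only [Pi.smul_apply, smul_eq_mul, mul_sum, RingHom.id_apply]
        exact sum_congr rfl (fun e _ => by ring) }
  have hcardT : Fintype.card T = (univ.filter (fun c => ∑ e, a c e * w e = 1)).card :=
    Fintype.card_subtype _
  have hcards : Fintype.card s = (univ.filter (fun e => w e ≠ 0)).card :=
    Fintype.card_subtype _
  have hker : LinearMap.ker φ ≠ ⊥ := by
    apply LinearMap.ker_ne_bot_of_finrank_lt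
    rw [Module.finrank_fintype_fun_eq_card, Module.finrank_fintype_fun_eq_card, hcardT, hcards]
    exact hlt
  obtain ⟨z, hzk, hz0⟩ := (Submodule.ne_bot_iff _).1 hker
  rw [LinearMap.mem_ker] at hzk
  let z' : E → ℝ := fun e => if h : w e ≠ 0 then z ⟨e, h⟩ else 0
  have hz'0 : ∀ e, w e = 0 → z' e = 0 := fun e he => by
    simp only [z']
    rw [dif_neg (by simpa using he)]
  have hsumz : ∀ c, ∑ e, a c e * z' e = ∑ e : s, a c e.1 * z e := by
    intro c
    have h1 : ∑ e, a c e * z' e = ∑ e ∈ univ.filter (fun e => w e ≠ 0), a c e * z' e := by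
      rw [sum_filter]
      apply sum_congr rfl
      intro e _
      split_ifs with h
      · rfl
      · rw [hz'0 e (by simpa using h), mul_zero]
    rw [h1, ← sum_subtype_eq_sum_filter (s := univ) (p := fun e => w e ≠ 0)
      (f := fun e => a c e * z' e)]
    simp only [subtype_univ]
    apply sum_congr rfl
    intro e _
    congr 1
    simp only [z']
    rw [dif_pos e.2]
  have htight : ∀ c, ∑ e, a c e * w e = 1 → ∑ e, a c e * z' e = 0 := by
    intro c hc
    rw [hsumz c]
    exact congrFun hzk ⟨c, hc⟩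
  have hev : ∀ᶠ t : ℝ in nhds 0, w + t • z' ∈ poly a := by
    have h1 : ∀ e, ∀ᶠ t : ℝ in nhds 0, 0 ≤ w e + t * z' e := by
      intro e
      rcases (hwF.1.1 e).eq_or_lt with h | h
      · refine Filter.Eventually.of_forall (fun t => ?_)
        rw [hz'0 e h.symm, ← h]
        simp
      · have hcont : Continuous (fun t : ℝ => w e + t * z' e) := by fun_prop
        have hpos : 0 < w e + 0 * z' e := by simpa using h
        exact (hcont.continuousAt.eventually (lt_mem_nhds hpos)).mono (fun t ht => ht.le)
    have h2 : ∀ c, ∀ᶠ t : ℝ in nhds 0, ∑ e, a c e * w e + t * ∑ e, a c e * z' e ≤ 1 := by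
      intro c
      rcases (hwF.1.2 c).eq_or_lt with h | h
      · refine Filter.Eventually.of_forall (fun t => ?_)
        rw [htight c h, h]
        simp
      · have hcont : Continuous (fun t : ℝ => ∑ e, a c e * w e + t * ∑ e, a c e * z' e) := by
          fun_prop
        have hlt1 : ∑ e, a c e * w e + 0 * ∑ e, a c e * z' e < 1 := by simpa using h
        exact (hcont.continuousAt.eventually (gt_mem_nhds hlt1)).mono (fun t ht => ht.le)
    filter_upwards [Filter.eventually_all.2 h1, Filter.eventually_all.2 h2] with t ht1 ht2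
    refine ⟨fun e => ?_, fun c => ?_⟩
    · simpa using ht1 e
    · have h3 : ∑ e, a c e * (w + t • z') e =
          ∑ e, a c e * w e + t * ∑ e, a c e * z' e := by
        simp only [Pi.add_apply, Pi.smul_apply, smul_eq_mul, mul_sum, ← sum_add_distrib]
        exact sum_congr rfl (fun e _ => by ring)
      rw [h3]
      exact ht2 c
  have hev2 : ∀ᶠ t : ℝ in nhds 0, w + (-t) • z' ∈ poly a := by
    have h1 : Filter.Tendsto (fun t : ℝ => -t) (nhds 0) (nhds 0) := by
      simpa using (continuous_neg (G := ℝ)).tendsto 0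
    exact h1.eventually hev
  obtain ⟨t, ⟨ht1, ht2⟩, ht0⟩ := (((hev.and hev2).filter_mono
    (nhdsWithin_le_nhds (s := {0}ᶜ))).and self_mem_nhdsWithin).exists
  have hseg : w ∈ openSegment ℝ (w + t • z') (w + (-t) • z') := by
    refine ⟨1 / 2, 1 / 2, by norm_num, by norm_num, by norm_num, ?_⟩
    ext e
    simp only [Pi.add_apply, Pi.smul_apply, smul_eq_mul]
    ring
  have heq := (mem_extremePoints.1 hwK).2 _ ht1 _ ht2 hseg
  have hzz : z' = 0 := by
    ext e
    have h3 := congrFun heq.1 e
    simp only [Pi.add_apply, Pi.smul_apply, smul_eq_mul] at h3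
    have h4 : t * z' e = 0 := by linarith
    rcases mul_eq_zero.1 h4 with h | h
    · exact absurd h ht0
    · exact h
  apply hz0
  ext e
  have h5 := congrFun hzz e.1
  simp only [z', Pi.zero_apply] at h5
  rw [dif_pos e.2] at h5
  simpa using h5

end

end H53.RY
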