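import Mathlib

/-!
The final real inequality.
-/

set_option autoImplicit false

namespace H53.RY

open Finset

/-- the constant `(2r²-4r+3)/(2r-1) = r - 3/2 + 3/(4r-2)` -/
noncomputable def rho (r : ℝ) : ℝ := (2 * r ^ 2 - 4 * r + 3) / (2 * r - 1)

theorem final_ineq {α : Type*} (H : Finset α) (w P Q : α → ℝ) (r ν m : ℝ) (hr : 3 ≤ r)
    (hν : 0 ≤ ν) (hw : ∀ e ∈ H, 0 ≤ w e)
    (ha : ∀ e ∈ H, 2 * w e ≤ w e * Q e + (r - 2) * P e)
    (hb : ∑ e ∈ H, w e * Q e ≤ r * ν - (r - 1) * m)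
    (hcν : ∑ e ∈ H, P e = ν) (hm : ∑ e ∈ H, P e * w e = m)
    (hQ : ∀ e ∈ H, 1 ≤ Q e) (hP : ∀ e ∈ H, 0 ≤ P e)
    (hn : (H.card : ℝ) ≤ r * ∑ e ∈ H, w e)
    (hA : ∀ e ∈ H, w e ≤ 3 / (2 * r - 1)) :
    ∑ e ∈ H, w e ≤ rho r * ν := by
  set W := ∑ e ∈ H, w e with hW
  set y : α → ℝ := fun e => max 0 (2 - Q e) with hy
  set Y := ∑ e ∈ H, w e * y e with hY
  have hy0 : ∀ e, 0 ≤ y e := fun e => le_max_left _ _
  have hy1 : ∀ e ∈ H, y e ≤ 1 := fun e he => max_le zero_le_one (by linarith [hQ e he])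
  have hyw : ∀ e ∈ H, w e * y e ≤ (r - 2) * P e := by
    intro e he
    rcases le_total 0 (2 - Q e) with h | h
    · have : y e = 2 - Q e := max_eq_right h
      rw [this]; nlinarith [ha e he]
    · have : y e = 0 := max_eq_left h
      rw [this, mul_zero]
      exact mul_nonneg (by linarith) (hP e he)
  have h2 : 2 * W - r * ν + (r - 1) * m ≤ Y := by
    have : 2 * W - ∑ e ∈ H, w e * Q e ≤ Y := by
      rw [hW, hY, mul_sum, ← sum_sub_distrib]
      apply sum_le_sum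
      intro e he
      have : 2 - Q e ≤ y e := le_max_right _ _
      nlinarith [hw e he]
    linarith
  have h3 : Y ≤ (r - 2) * ν := by
    rw [hY, ← hcν, mul_sum]
    exact sum_le_sum hyw
  have hsy : ∑ e ∈ H, y e ≤ r * W - (W - Y) * ((2 * r - 1) / 3) := by
    have h1 : ∑ e ∈ H, y e ≤ ∑ e ∈ H, (1 - (w e - w e * y e) * ((2 * r - 1) / 3)) := by
      apply sum_le_sum
      intro e he
      have hA' : w e * ((2 * r - 1) / 3) ≤ 1 := by
        have := hA e he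
        rw [le_div_iff₀ (by linarith)] at this
        linarith
      nlinarith [hy1 e he, hy0 e, hw e he, hA']
    have h4 : ∑ e ∈ H, (1 - (w e - w e * y e) * ((2 * r - 1) / 3)) =
        (H.card : ℝ) - (W - Y) * ((2 * r - 1) / 3) := by
      rw [sum_sub_distrib, ← sum_mul, sum_sub_distrib, sum_const, nsmul_eq_mul, mul_one]
    linarith
  have hr0 : 0 < r := by linarith
  have h5 : (r - 2) * m ≥ (2 / r) * Y - (1 / r ^ 2) * ∑ e ∈ H, y e := by
    have h6 : ∑ e ∈ H, ((2 / r) * (w e * y e) - (1 / r ^ 2) * y e) ≤ (r - 2) * m := by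
      rw [← hm, mul_sum]
      apply sum_le_sum
      intro e he
      have h7 : (2 / r) * (w e * y e) - (1 / r ^ 2) * y e ≤ w e * (w e * y e) := by
        have : 0 ≤ (w e - 1 / r) ^ 2 * y e := mul_nonneg (sq_nonneg _) (hy0 e)
        have e1 : (w e - 1 / r) ^ 2 * y e =
          w e * (w e * y e) - ((2 / r) * (w e * y e) - (1 / r ^ 2) * y e) := by
          field_simp
          ring
        linarith
      have h8 := mul_le_mul_of_nonneg_left (hyw e he) (hw e he)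
      nlinarith [h7, h8]
    rw [sum_sub_distrib, ← mul_sum, ← mul_sum] at h6
    linarith
  -- multiply by `3 r²`
  have h9 : 3 * r ^ 2 * (r - 2) * m ≥ (4 * r + 1) * Y - (r + 1) * W := by
    have h10 : (2 / r) * Y - (1 / r ^ 2) * (r * W - (W - Y) * ((2 * r - 1) / 3)) ≤ (r - 2) * m := by
      have h11 : (1 / r ^ 2) * ∑ e ∈ H, y e ≤
          (1 / r ^ 2) * (r * W - (W - Y) * ((2 * r - 1) / 3)) :=
        mul_le_mul_of_nonneg_left hsy (by positivity)
      linarith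
    have h12 := mul_le_mul_of_nonneg_left h10 (show (0:ℝ) ≤ 3 * r ^ 2 by positivity)
    have e2 : 3 * r ^ 2 * ((2 / r) * Y -
        (1 / r ^ 2) * (r * W - (W - Y) * ((2 * r - 1) / 3))) =
        (4 * r + 1) * Y - (r + 1) * W := by
      field_simp
      ring
    rw [e2] at h12
    linarith
  have hI : m * (3 * r ^ 3 - 10 * r ^ 2 + 3 * r + 1) ≥ (7 * r + 1) * W - (4 * r ^ 2 + r) * ν := by
    have h13 := mul_le_mul_of_nonneg_left h2 (show (0:ℝ) ≤ 4 * r + 1 by linarith)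
    nlinarith [h13, h9]
  have hII : (r - 1) * m ≤ (2 * r - 2) * ν - 2 * W := by linarith
  have hK : 0 ≤ 3 * r ^ 3 - 10 * r ^ 2 + 3 * r + 1 := by
    nlinarith [mul_nonneg (mul_nonneg hr0.le hr0.le) (sub_nonneg.2 hr), sq_nonneg (r - 3)]
  have hIII : W * ((7 * r + 1) * (r - 1) + 2 * (3 * r ^ 3 - 10 * r ^ 2 + 3 * r + 1)) ≤
      ν * (r - 1) * (4 * r ^ 2 + r + 2 * (3 * r ^ 3 - 10 * r ^ 2 + 3 * r + 1)) := by
    have h14 := mul_le_mul_of_nonneg_left hII hK
    have h15 := mul_le_mul_of_nonneg_right hI.le (show (0:ℝ) ≤ r - 1 by linarith)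
    nlinarith [h14, h15]
  have hD : 0 < (7 * r + 1) * (r - 1) + 2 * (3 * r ^ 3 - 10 * r ^ 2 + 3 * r + 1) := by nlinarith
  have hfin : ν * (r - 1) * (4 * r ^ 2 + r + 2 * (3 * r ^ 3 - 10 * r ^ 2 + 3 * r + 1)) ≤
      rho r * ν * ((7 * r + 1) * (r - 1) + 2 * (3 * r ^ 3 - 10 * r ^ 2 + 3 * r + 1)) := by
    have h16 : (r - 1) * (4 * r ^ 2 + r + 2 * (3 * r ^ 3 - 10 * r ^ 2 + 3 * r + 1)) ≤
        rho r * ((7 * r + 1) * (r - 1) + 2 * (3 * r ^ 3 - 10 * r ^ 2 + 3 * r + 1)) := by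
      unfold rho
      rw [div_mul_eq_mul_div, le_div_iff₀ (by linarith)]
      nlinarith [mul_nonneg (sq_nonneg (r - 1)) (sub_nonneg.2 hr), sq_nonneg (r - 3),
        mul_nonneg hr0.le (sub_nonneg.2 hr)]
    nlinarith [mul_le_mul_of_nonneg_left h16 hν]
  have := hIII.trans hfin
  exact le_of_mul_le_mul_right this hD

end H53.RY
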