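import Pool.Agent.H53.RY.Local
import Pool.Agent.H53.RY.Final

/-!
Summing the local inequality.
-/

set_option autoImplicit false

namespace H53.RY

open Finset

variable {α : Type*} [DecidableEq α]

open Classical in
/-- The abstract bound: `N[e]` has weight at most `r-(r-1)w(e)`, cliques have weight at most `r-2`,
at most `r·W` edges, all weights at most `3/(2r-1)`. -/
theorem abstract_bound (M : α → α → Prop) (hrefl : ∀ e, M e e) (hsymm : ∀ e f, M e f → M f e)
    (H : Finset α) (ν : ℕ) (hν : ∀ S ⊆ H, Mat M S → S.card ≤ ν)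
    (hν' : ∃ S ⊆ H, Mat M S ∧ S.card = ν)
    (w : α → ℝ) (hw : ∀ e ∈ H, 0 < w e) (r : ℝ) (hr : 3 ≤ r)
    (hc : ∀ F ⊆ H, (∀ e ∈ F, ∀ f ∈ F, M e f) → ∑ f ∈ F, w f ≤ r - 2)
    (hN : ∀ f ∈ H, ∑ e ∈ H.filter (fun e => M e f), w e ≤ r - (r - 1) * w f)
    (hn : (H.card : ℝ) ≤ r * ∑ e ∈ H, w e)
    (hA : ∀ e ∈ H, w e ≤ 3 / (2 * r - 1)) :
    ∑ e ∈ H, w e ≤ rho r * ν := by
  -- pass to a weight that is nonnegative everywhere
  set w' : α → ℝ := fun e => if e ∈ H then w e else 0 with hw'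
  have hw'e : ∀ e ∈ H, w' e = w e := fun e he => if_pos he
  have hw'0 : ∀ e, 0 ≤ w' e := fun e => by
    simp only [hw']
    split_ifs with h
    · exact (hw e h).le
    · exact le_rfl
  have hsumw : ∀ F ⊆ H, ∑ f ∈ F, w' f = ∑ f ∈ F, w f := fun F hF =>
    sum_congr rfl (fun f hf => hw'e f (hF hf))
  have hcw : ∀ F ⊆ H, (∀ e ∈ F, ∀ f ∈ F, M e f) → ∑ f ∈ F, w' f ≤ r - 2 := fun F hF h => by
    rw [hsumw F hF]; exact hc F hF h
  set 𝓜 := mm M H ν with h𝓜
  set π : Finset α → ℝ := fun S => ∏ f ∈ S, w' f with hπdef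
  have hπ : ∀ S ∈ 𝓜, 0 < π S := fun S hS =>
    prod_pos (fun f hf => by rw [hw'e f ((mem_mm.1 hS).1 hf)]; exact hw f ((mem_mm.1 hS).1 hf))
  set Z := ∑ S ∈ 𝓜, π S with hZ
  have hZpos : 0 < Z := by
    obtain ⟨S, hSH, hSM, hSc⟩ := hν'
    exact sum_pos hπ ⟨S, mem_mm.2 ⟨hSH, hSM, hSc⟩⟩
  set P : α → ℝ := fun e => (∑ S ∈ 𝓜.filter (fun S => e ∈ S), π S) / Z with hP
  set Q : α → ℝ := fun e => (∑ S ∈ 𝓜, π S * ((S.filter (M e)).card : ℝ)) / Z with hQ
  set m : ℝ := ∑ e ∈ H, P e * w e with hm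
  -- sums over `S` of functions of the elements
  have hswap : ∀ g : α → ℝ, ∑ e ∈ H, (∑ S ∈ 𝓜.filter (fun S => e ∈ S), π S) * g e =
      ∑ S ∈ 𝓜, π S * ∑ f ∈ S, g f := by
    intro g
    have e1 : ∀ e ∈ H, (∑ S ∈ 𝓜.filter (fun S => e ∈ S), π S) * g e =
        ∑ S ∈ 𝓜, if e ∈ S then π S * g e else 0 := by
      intro e _
      rw [sum_mul, sum_filter]
    rw [sum_congr rfl e1, sum_comm]
    apply sum_congr rfl
    intro S hS
    rw [mul_sum, ← sum_filter]
    apply sum_congr _ (fun _ _ => rfl)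
    ext f
    simp only [mem_filter]
    exact ⟨fun h => h.2, fun h => ⟨(mem_mm.1 hS).1 h, h⟩⟩
  refine final_ineq H w P Q r ν m hr (Nat.cast_nonneg _) (fun e he => (hw e he).le)
    ?_ ?_ ?_ rfl ?_ ?_ hn hA
  · -- local inequality
    intro e he
    have h1 := local_ineq M hrefl hsymm H ν hν w' hw'0 (r - 2) hcw e he
    rw [hw'e e he] at h1
    have h2 : 2 * w e * Z ≤ (w e * Q e + (r - 2) * P e) * Z := by
      have e2 : (w e * Q e + (r - 2) * P e) * Z =
          w e * (∑ S ∈ 𝓜, π S * ((S.filter (M e)).card : ℝ)) +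
          (r - 2) * (∑ S ∈ 𝓜.filter (fun S => e ∈ S), π S) := by
        simp only [hP, hQ]
        field_simp
      rw [e2]
      exact h1
    exact le_of_mul_le_mul_right h2 hZpos
  · -- sum of `w Q`
    have h1 : (∑ e ∈ H, w e * Q e) * Z =
        ∑ S ∈ 𝓜, π S * ∑ f ∈ S, ∑ e ∈ H.filter (fun e => M e f), w e := by
      have e1 : (∑ e ∈ H, w e * Q e) * Z =
          ∑ e ∈ H, ∑ S ∈ 𝓜, π S * (w e * ((S.filter (M e)).card : ℝ)) := by
        rw [sum_mul]
        apply sum_congr rfl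
        intro e _
        simp only [hQ]
        rw [mul_assoc, div_mul_cancel₀ _ hZpos.ne', mul_sum]
        exact sum_congr rfl (fun S _ => by ring)
      rw [e1, sum_comm]
      apply sum_congr rfl
      intro S _
      rw [← mul_sum]
      congr 1
      have e2 : ∀ e ∈ H, w e * ((S.filter (M e)).card : ℝ) =
          ∑ f ∈ S, if M e f then w e else 0 := by
        intro e _
        rw [← sum_filter, sum_const, nsmul_eq_mul, mul_comm]
      rw [sum_congr rfl e2, sum_comm]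
      exact sum_congr rfl (fun f _ => by rw [sum_filter])
    have h2 : ∑ S ∈ 𝓜, π S * ∑ f ∈ S, ∑ e ∈ H.filter (fun e => M e f), w e ≤
        ∑ S ∈ 𝓜, π S * (r * ν - (r - 1) * ∑ f ∈ S, w f) := by
      apply sum_le_sum
      intro S hS
      apply mul_le_mul_of_nonneg_left _ (hπ S hS).le
      obtain ⟨hSH, _, hSc⟩ := mem_mm.1 hS
      calc ∑ f ∈ S, ∑ e ∈ H.filter (fun e => M e f), w e
          ≤ ∑ f ∈ S, (r - (r - 1) * w f) := sum_le_sum (fun f hf => hN f (hSH hf))
        _ = r * ν - (r - 1) * ∑ f ∈ S, w f := by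
            rw [sum_sub_distrib, sum_const, nsmul_eq_mul, hSc, ← mul_sum]
            ring
    have h3 : ∑ S ∈ 𝓜, π S * (r * ν - (r - 1) * ∑ f ∈ S, w f) =
        (r * ν - (r - 1) * m) * Z := by
      have e3 : m * Z = ∑ S ∈ 𝓜, π S * ∑ f ∈ S, w f := by
        rw [← hswap w, hm, sum_mul]
        apply sum_congr rfl
        intro e _
        simp only [hP]
        field_simp
      have e4 : ∑ S ∈ 𝓜, π S * (r * ν - (r - 1) * ∑ f ∈ S, w f) =
          (r * ν) * ∑ S ∈ 𝓜, π S - (r - 1) * ∑ S ∈ 𝓜, π S * ∑ f ∈ S, w f := by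
        rw [mul_sum, mul_sum, ← sum_sub_distrib]
        exact sum_congr rfl (fun S _ => by ring)
      rw [e4, ← e3]
      ring
    have h4 : (∑ e ∈ H, w e * Q e) * Z ≤ (r * ν - (r - 1) * m) * Z := by
      rw [h1, ← h3]; exact h2
    exact le_of_mul_le_mul_right h4 hZpos
  · -- sum of `P`
    have h1 := hswap (fun _ => 1)
    simp only [mul_one, sum_const, nsmul_eq_mul] at h1
    have h2 : ∑ e ∈ H, P e = (∑ e ∈ H, ∑ S ∈ 𝓜.filter (fun S => e ∈ S), π S) / Z := by
      rw [sum_div]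
    rw [h2, h1, div_eq_iff hZpos.ne', hZ, mul_sum]
    apply sum_congr rfl
    intro S hS
    rw [(mem_mm.1 hS).2.2]
    ring
  · -- `Q ≥ 1`
    intro e he
    simp only [hQ]
    rw [le_div_iff₀ hZpos, one_mul, hZ]
    apply sum_le_sum
    intro S hS
    obtain ⟨hSH, hSM, hSc⟩ := mem_mm.1 hS
    have h1 : 1 ≤ (S.filter (M e)).card := by
      by_contra hlt
      have hz : (S.filter (M e)).card = 0 := by omega
      have hall : ∀ f ∈ S, ¬ M e f := by
        intro f hf hMf
        have : f ∈ S.filter (M e) := mem_filter.2 ⟨hf, hMf⟩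
        rw [card_eq_zero.1 hz] at this
        simp at this
      have heS : e ∉ S := fun h => hall e h (hrefl e)
      have h2 := hν (insert e S) (insert_subset he hSH) (by
        intro a ha b hb hab
        rcases mem_insert.1 ha with rfl | ha'
        · rcases mem_insert.1 hb with rfl | hb'
          · exact absurd rfl hab
          · exact hall b hb'
        · rcases mem_insert.1 hb with rfl | hb'
          · exact fun h => hall a ha' (hsymm _ _ h)
          · exact hSM a ha' b hb' hab)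
      rw [card_insert_of_notMem heS, hSc] at h2
      omega
    have h3 : (1 : ℝ) ≤ ((S.filter (M e)).card : ℝ) := by exact_mod_cast h1
    nlinarith [hπ S hS]
  · -- `P ≥ 0`
    intro e _
    exact div_nonneg (sum_nonneg (fun S hS => (hπ S (mem_filter.1 hS).1).le)) hZpos.le

end H53.RY
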