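import Pool.Agent.H53.RY.Global
import Pool.Agent.H53.RY.Extreme

/-!
`r`-partite hypergraphs: the edges are functions `Fin r → ℕ`.
-/

set_option autoImplicit false

namespace H53.RY

open Finset

variable {r : ℕ}

/-- two edges meet -/
def meets (e f : Fin r → ℕ) : Prop := ∃ i, e i = f i

theorem meets_refl (hr : 0 < r) (e : Fin r → ℕ) : meets e e := ⟨⟨0, hr⟩, rfl⟩

theorem meets_symm (e f : Fin r → ℕ) (h : meets e f) : meets f e := by
  obtain ⟨i, hi⟩ := h
  exact ⟨i, hi.symm⟩

/-- fractional matching -/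
def FM (H : Finset (Fin r → ℕ)) (w : (Fin r → ℕ) → ℝ) : Prop :=
  (∀ e ∈ H, 0 ≤ w e) ∧ ∀ i v, ∑ e ∈ H.filter (fun e => e i = v), w e ≤ 1

theorem FM.mono {H K : Finset (Fin r → ℕ)} {w : (Fin r → ℕ) → ℝ} (h : FM H w) (hK : K ⊆ H) :
    FM K w := by
  refine ⟨fun e he => h.1 e (hK he), fun i v => ?_⟩
  refine le_trans (sum_le_sum_of_subset_of_nonneg (filter_subset_filter _ hK) ?_) (h.2 i v)
  intro e he _
  exact h.1 e (mem_filter.1 he).1

/-- matching number -/
noncomputable def nu (H : Finset (Fin r → ℕ)) : ℕ :=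
  (mmAll H).sup card
where
  /-- all matchings -/
  mmAll (H : Finset (Fin r → ℕ)) : Finset (Finset (Fin r → ℕ)) := by
    classical exact H.powerset.filter (fun S => Mat meets S)

theorem le_nu {H S : Finset (Fin r → ℕ)} (hS : S ⊆ H) (hM : Mat meets S) : S.card ≤ nu H := by
  classical
  have : S ∈ nu.mmAll H := by
    unfold nu.mmAll
    exact mem_filter.2 ⟨mem_powerset.2 hS, hM⟩
  exact le_sup (f := card) this

theorem exists_nu (H : Finset (Fin r → ℕ)) : ∃ S ⊆ H, Mat meets S ∧ S.card = nu H := by
  classical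
  have hne : (nu.mmAll H).Nonempty := by
    refine ⟨∅, ?_⟩
    unfold nu.mmAll
    exact mem_filter.2 ⟨by simp, by intro e he; simp at he⟩
  obtain ⟨S, hS, hSe⟩ := exists_mem_eq_sup (nu.mmAll H) hne card
  unfold nu.mmAll at hS
  obtain ⟨h1, h2⟩ := mem_filter.1 hS
  exact ⟨S, mem_powerset.1 h1, h2, hSe.symm⟩

theorem nu_mono {H K : Finset (Fin r → ℕ)} (h : K ⊆ H) : nu K ≤ nu H := by
  obtain ⟨S, hS, hM, hc⟩ := exists_nu K
  rw [← hc]
  exact le_nu (hS.trans h) hM

/-- every intersecting subfamily has a cover of size at most `c` -/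
def RF (c : ℕ) (H : Finset (Fin r → ℕ)) : Prop :=
  ∀ F ⊆ H, (∀ e ∈ F, ∀ f ∈ F, meets e f) →
    ∃ C : Finset (Fin r × ℕ), C.card ≤ c ∧ ∀ e ∈ F, ∃ i, (i, e i) ∈ C

theorem RF.mono {c : ℕ} {H K : Finset (Fin r → ℕ)} (h : RF c H) (hK : K ⊆ H) : RF c K :=
  fun F hF => h F (hF.trans hK)

open Classical in
theorem sum_le_cover {H F : Finset (Fin r → ℕ)} {w : (Fin r → ℕ) → ℝ} (hw : FM H w) (hF : F ⊆ H)
    (C : Finset (Fin r × ℕ)) (hC : ∀ e ∈ F, ∃ i, (i, e i) ∈ C) :
    ∑ e ∈ F, w e ≤ C.card := by
  have hFw := hw.mono hF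
  calc ∑ e ∈ F, w e ≤ ∑ e ∈ F, ∑ c ∈ C, if e c.1 = c.2 then w e else 0 := by
        apply sum_le_sum
        intro e he
        obtain ⟨i, hi⟩ := hC e he
        have h1 : (if e (i, e i).1 = (i, e i).2 then w e else 0) ≤
            ∑ c ∈ C, if e c.1 = c.2 then w e else 0 :=
          single_le_sum (f := fun c : Fin r × ℕ => if e c.1 = c.2 then w e else 0)
            (fun c _ => by split_ifs; exact hFw.1 e he; exact le_rfl) hi
        simpa using h1
    _ = ∑ c ∈ C, ∑ e ∈ F, if e c.1 = c.2 then w e else 0 := sum_comm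
    _ ≤ ∑ c ∈ C, (1 : ℝ) := by
        apply sum_le_sum
        intro c _
        rw [← sum_filter]
        exact hFw.2 c.1 c.2
    _ = C.card := by simp

open Classical in
theorem nbhd_bound {H : Finset (Fin r → ℕ)} {w : (Fin r → ℕ) → ℝ} (hw : FM H w)
    (f : Fin r → ℕ) (hf : f ∈ H) :
    ∑ e ∈ H.filter (fun e => meets f e), w e ≤ r - (r - 1) * w f := by
  have h1 : ∑ i : Fin r, ∑ e ∈ H.filter (fun e => e i = f i), w e ≤ r := by
    calc ∑ i : Fin r, ∑ e ∈ H.filter (fun e => e i = f i), w e ≤ ∑ i : Fin r, (1 : ℝ) :=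
          sum_le_sum (fun i _ => hw.2 i (f i))
      _ = r := by simp
  have h2 : ∑ i : Fin r, ∑ e ∈ H.filter (fun e => e i = f i), w e =
      ∑ e ∈ H, w e * ((univ.filter (fun i => e i = f i)).card : ℝ) := by
    have : ∀ i : Fin r, ∑ e ∈ H.filter (fun e => e i = f i), w e =
        ∑ e ∈ H, if e i = f i then w e else 0 := fun i => by rw [sum_filter]
    rw [sum_congr rfl (fun i _ => this i), sum_comm]
    apply sum_congr rfl
    intro e _
    rw [← sum_filter, sum_const, nsmul_eq_mul, mul_comm]
  have h3 : ∑ e ∈ H, ((if meets f e then w e else 0) + if e = f then ((r : ℝ) - 1) * w f else 0) ≤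
      ∑ e ∈ H, w e * ((univ.filter (fun i => e i = f i)).card : ℝ) := by
    apply sum_le_sum
    intro e he
    have hwe := hw.1 e he
    by_cases hef : e = f
    · subst hef
      have : (univ.filter (fun i => e i = e i)).card = r := by simp
      rw [this, if_pos rfl]
      by_cases hr : meets e e
      · rw [if_pos hr]; linarith
      · have hr0 : r = 0 := by
          by_contra h
          exact hr (meets_refl (Nat.pos_of_ne_zero h) e)
        subst hr0
        rw [if_neg hr]
        simp
        exact hwe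
    · rw [if_neg hef, add_zero]
      by_cases hm : meets f e
      · rw [if_pos hm]
        obtain ⟨i, hi⟩ := hm
        have : 1 ≤ (univ.filter (fun i => e i = f i)).card :=
          card_pos.2 ⟨i, by simp [hi]⟩
        have h4 : (1 : ℝ) ≤ ((univ.filter (fun i => e i = f i)).card : ℝ) := by exact_mod_cast this
        nlinarith
      · rw [if_neg hm]
        positivity
  rw [sum_add_distrib, ← sum_filter, sum_ite_eq' H f, if_pos hf, ← h2] at h3
  linarith

open Classical in
theorem exists_basic_FM {H : Finset (Fin r → ℕ)} {w0 : (Fin r → ℕ) → ℝ} (hr : 0 < r)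
    (hw0 : FM H w0) :
    ∃ w, FM H w ∧ ∑ e ∈ H, w0 e ≤ ∑ e ∈ H, w e ∧
      ((H.filter (fun e => w e ≠ 0)).card : ℝ) ≤ r * ∑ e ∈ H, w e := by
  set V : Finset (Fin r × ℕ) := H.biUnion (fun e => univ.image (fun i => (i, e i))) with hV
  let a : V → H → ℝ := fun c e => if e.1 c.1.1 = c.1.2 then 1 else 0
  have ha0 : ∀ c e, 0 ≤ a c e := fun c e => by
    simp only [a]; split_ifs <;> norm_num
  have hb : ∀ e : H, ∃ c, a c e = 1 := by
    intro e
    refine ⟨⟨(⟨0, hr⟩, e.1 ⟨0, hr⟩), mem_biUnion.2 ⟨e.1, e.2, mem_image.2 ⟨⟨0, hr⟩, mem_univ _, rfl⟩⟩⟩,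
      ?_⟩
    simp [a]
  have hsum : ∀ (g : (Fin r → ℕ) → ℝ) (c : V), ∑ e : H, a c e * g e.1 =
      ∑ e ∈ H.filter (fun e => e c.1.1 = c.1.2), g e := by
    intro g c
    rw [sum_filter, ← sum_coe_sort H]
    apply sum_congr rfl
    intro e _
    simp only [a]
    split_ifs <;> simp
  have hw0p : (fun e : H => w0 e.1) ∈ poly a := by
    refine ⟨fun e => hw0.1 e.1 e.2, fun c => ?_⟩
    rw [hsum w0 c]
    exact hw0.2 _ _
  obtain ⟨w, hwp, hwle, hwc⟩ := exists_basic a ha0 hb _ hw0p
  let w' : (Fin r → ℕ) → ℝ := fun e => if h : e ∈ H then w ⟨e, h⟩ else 0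
  have hw' : ∀ e : H, w' e.1 = w e := fun e => by
    simp only [w']
    rw [dif_pos e.2]
  have hsumw : ∑ e ∈ H, w' e = ∑ e : H, w e := by
    rw [← sum_coe_sort H]
    exact sum_congr rfl (fun e _ => hw' e)
  have hFM : FM H w' := by
    refine ⟨fun e he => ?_, fun i v => ?_⟩
    · rw [hw' ⟨e, he⟩]; exact hwp.1 _
    · by_cases hc : (i, v) ∈ V
      · have h1 := hwp.2 ⟨(i, v), hc⟩
        have h2 := hsum w' ⟨(i, v), hc⟩
        simp only at h2
        rw [← h2]
        refine le_trans (le_of_eq (sum_congr rfl (fun e _ => by rw [hw' e]))) h1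
      · rw [filter_eq_empty_iff.2, sum_empty]
        · exact zero_le_one
        · intro e he hei
          exact hc (mem_biUnion.2 ⟨e, he, mem_image.2 ⟨i, mem_univ _, by rw [hei]⟩⟩)
  refine ⟨w', hFM, ?_, ?_⟩
  · rw [hsumw]
    refine le_trans (le_of_eq ?_) hwle
    rw [← sum_coe_sort H]
  · have h1 : (H.filter (fun e => w' e ≠ 0)).card = (univ.filter (fun e : H => w e ≠ 0)).card := by
      rw [card_filter, card_filter, ← sum_coe_sort H]
      apply sum_congr rfl
      intro e _
      rw [hw' e]
    have h2 : ((univ.filter (fun c : V => ∑ e, a c e * w e = 1)).card : ℝ) ≤ r * ∑ e : H, w e := by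
      calc ((univ.filter (fun c : V => ∑ e, a c e * w e = 1)).card : ℝ)
          = ∑ c ∈ univ.filter (fun c : V => ∑ e, a c e * w e = 1), (1 : ℝ) := by simp
        _ = ∑ c ∈ univ.filter (fun c : V => ∑ e, a c e * w e = 1), ∑ e, a c e * w e :=
            sum_congr rfl (fun c hc => (mem_filter.1 hc).2.symm)
        _ ≤ ∑ c : V, ∑ e, a c e * w e :=
            sum_le_sum_of_subset_of_nonneg (subset_univ _)
              (fun c _ _ => sum_nonneg (fun e _ => mul_nonneg (ha0 c e) (hwp.1 e)))
        _ = ∑ e : H, (∑ c : V, a c e) * w e := by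
            rw [sum_comm]
            exact sum_congr rfl (fun e _ => by rw [sum_mul])
        _ = ∑ e : H, (r : ℝ) * w e := by
            apply sum_congr rfl
            intro e _
            congr 1
            have h3 : ∑ c : V, a c e = ∑ c ∈ V, if e.1 c.1 = c.2 then (1 : ℝ) else 0 := by
              rw [← sum_coe_sort V]
            rw [h3, ← sum_filter, sum_const, nsmul_eq_mul, mul_one]
            have h4 : V.filter (fun c => e.1 c.1 = c.2) =
                (univ : Finset (Fin r)).image (fun i => (i, e.1 i)) := by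
              ext ⟨i, v⟩
              simp only [mem_filter, mem_image, mem_univ, true_and, Prod.mk.injEq]
              constructor
              · rintro ⟨_, h⟩
                exact ⟨i, rfl, h⟩
              · rintro ⟨j, rfl, rfl⟩
                exact ⟨mem_biUnion.2 ⟨e.1, e.2, mem_image.2 ⟨j, mem_univ _, rfl⟩⟩, rfl⟩
            rw [h4, card_image_of_injective _ (fun i j h => (Prod.mk.inj h).1)]
            simp
        _ = r * ∑ e : H, w e := by rw [mul_sum]
    rw [h1, hsumw]
    refine le_trans ?_ h2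
    exact_mod_cast hwc

theorem rho_nonneg {r : ℝ} (hr : 3 ≤ r) : 0 ≤ rho r := by
  unfold rho
  apply div_nonneg _ (by linarith)
  nlinarith

open Classical in
/-- Theorem A. -/
theorem boundA (hr : 3 ≤ r) : ∀ n : ℕ, ∀ H : Finset (Fin r → ℕ), H.card ≤ n → RF (r - 2) H →
    ∀ w, FM H w → ∑ e ∈ H, w e ≤ rho r * nu H := by
  have hr' : (3 : ℝ) ≤ r := by exact_mod_cast hr
  have hr0 : 0 < r := by omega
  intro n
  induction n with
  | zero =>
    intro H hH _ w _
    rw [card_eq_zero.1 (Nat.le_zero.1 hH), sum_empty]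
    exact mul_nonneg (rho_nonneg hr') (Nat.cast_nonneg _)
  | succ n ih =>
    intro H hH hRF w0 hw0
    obtain ⟨w, hw, hle, hsupp⟩ := exists_basic_FM hr0 hw0
    refine hle.trans ?_
    by_cases hpos : ∀ e ∈ H, w e ≠ 0
    · by_cases hheavy : ∃ e ∈ H, 3 / (2 * (r : ℝ) - 1) < w e
      · obtain ⟨e, he, hwe⟩ := hheavy
        -- remove the neighbourhood of `e`
        set K := H.filter (fun f => ¬ meets e f) with hK
        have hKH : K ⊆ H := filter_subset _ _
        have heK : e ∉ K := fun h => (mem_filter.1 h).2 (meets_refl hr0 e)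
        have hKc : K.card ≤ n := by
          have : K.card < H.card := card_lt_card ⟨hKH, fun h => heK (h he)⟩
          omega
        have h1 := ih K hKc (hRF.mono hKH) w (hw.mono hKH)
        have h2 : nu K + 1 ≤ nu H := by
          obtain ⟨S, hS, hM, hc⟩ := exists_nu K
          have heS : e ∉ S := fun h => heK (hS h)
          have h3 : (insert e S).card ≤ nu H := by
            apply le_nu (insert_subset he (hS.trans hKH))
            intro a ha b hb hab
            rcases mem_insert.1 ha with rfl | ha'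
            · rcases mem_insert.1 hb with rfl | hb'
              · exact absurd rfl hab
              · exact (mem_filter.1 (hS hb')).2
            · rcases mem_insert.1 hb with rfl | hb'
              · exact fun h => (mem_filter.1 (hS ha')).2 (meets_symm _ _ h)
              · exact hM a ha' b hb' hab
          rw [card_insert_of_notMem heS, hc] at h3
          exact h3
        have h4 := nbhd_bound hw e he
        have h5 : ∑ f ∈ H, w f = ∑ f ∈ H.filter (fun f => meets e f), w f + ∑ f ∈ K, w f :=
          (sum_filter_add_sum_filter_not H (fun f => meets e f) w).symm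
        have h6 : (r : ℝ) - (r - 1) * w e ≤ rho r := by
          unfold rho
          rw [le_div_iff₀ (by linarith)]
          rw [div_lt_iff₀ (by linarith)] at hwe
          nlinarith
        have h7 : (nu K : ℝ) + 1 ≤ nu H := by exact_mod_cast h2
        have h8 := mul_le_mul_of_nonneg_left h7 (rho_nonneg hr')
        rw [h5]
        nlinarith
      · push Not at hheavy
        have hfull : H.filter (fun e => w e ≠ 0) = H := filter_true_of_mem hpos
        rw [hfull] at hsupp
        refine abstract_bound meets (meets_refl hr0) meets_symm H (nu H)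
          (fun S hS hM => le_nu hS hM) (exists_nu H) w
          (fun e he => lt_of_le_of_ne (hw.1 e he) (hpos e he).symm) r hr' ?_ ?_ hsupp hheavy
        · intro F hF hFc
          obtain ⟨C, hCc, hC⟩ := hRF F hF hFc
          have h1 := sum_le_cover hw hF C hC
          have h2 : (C.card : ℝ) ≤ (r : ℝ) - 2 := by
            have : (C.card : ℝ) ≤ ((r - 2 : ℕ) : ℝ) := by exact_mod_cast hCc
            rw [Nat.cast_sub (by omega)] at this
            simpa using this
          exact h1.trans h2
        · intro f hf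
          have h1 : H.filter (fun e => meets e f) = H.filter (fun e => meets f e) :=
            filter_congr (fun e _ => ⟨meets_symm _ _, meets_symm _ _⟩)
          rw [h1]
          exact nbhd_bound hw f hf
    · push Not at hpos
      obtain ⟨e, he, hwe⟩ := hpos
      have hKc : (H.erase e).card ≤ n := by
        rw [card_erase_of_mem he]; omega
      have h1 := ih (H.erase e) hKc (hRF.mono (erase_subset _ _)) w (hw.mono (erase_subset _ _))
      have h2 : ∑ f ∈ H, w f = ∑ f ∈ H.erase e, w f := by
        rw [← add_sum_erase H w he, hwe, zero_add]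
      rw [h2]
      refine h1.trans (mul_le_mul_of_nonneg_left ?_ (rho_nonneg hr'))
      exact_mod_cast nu_mono (erase_subset _ _)

end H53.RY
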