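import Mathlib

/-!
Random maximum matchings (Molloy-Reed / McDiarmid argument), abstract form.
`M e f` means: the edges `e` and `f` meet.
-/

set_option autoImplicit false

namespace H53.RY

open Finset

variable {α : Type*} [DecidableEq α]

/-- `S` is a matching for the relation `M` (`M e f`: the edges meet). -/
def Mat (M : α → α → Prop) (S : Finset α) : Prop := ∀ e ∈ S, ∀ f ∈ S, e ≠ f → ¬ M e f

open Classical in
/-- matchings of size `ν` in `H` -/
noncomputable def mm (M : α → α → Prop) (H : Finset α) (ν : ℕ) : Finset (Finset α) :=
  H.powerset.filter (fun S => Mat M S ∧ S.card = ν)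

omit [DecidableEq α] in
theorem mem_mm {M : α → α → Prop} {H : Finset α} {ν : ℕ} {S : Finset α} :
    S ∈ mm M H ν ↔ S ⊆ H ∧ Mat M S ∧ S.card = ν := by
  classical
  simp [mm]

open Classical in
theorem local_ineq (M : α → α → Prop) (hrefl : ∀ e, M e e) (hsymm : ∀ e f, M e f → M f e)
    (H : Finset α) (ν : ℕ) (hν : ∀ S ⊆ H, Mat M S → S.card ≤ ν)
    (w : α → ℝ) (hw : ∀ e, 0 ≤ w e) (c : ℝ)
    (hc : ∀ F ⊆ H, (∀ e ∈ F, ∀ f ∈ F, M e f) → ∑ f ∈ F, w f ≤ c) (e : α) (he : e ∈ H) :
    2 * w e * ∑ S ∈ mm M H ν, ∏ f ∈ S, w f ≤
      w e * ∑ S ∈ mm M H ν, (∏ f ∈ S, w f) * ((S.filter (M e)).card : ℝ) +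
      c * ∑ S ∈ (mm M H ν).filter (fun S => e ∈ S), ∏ f ∈ S, w f := by
  have hc0 : 0 ≤ c := by
    have := hc ∅ (empty_subset _) (by simp)
    simpa using this
  have hπ : ∀ S : Finset α, 0 ≤ ∏ f ∈ S, w f := fun S => prod_nonneg (fun f _ => hw f)
  have key : 0 ≤ ∑ S ∈ mm M H ν, ((∏ f ∈ S, w f) * (w e * ((S.filter (M e)).card : ℝ) - 2 * w e)
      + if e ∈ S then c * ∏ f ∈ S, w f else 0) := by
    rw [← Finset.sum_fiberwise_of_maps_to (s := mm M H ν)
      (t := (mm M H ν).image (fun S => S.filter (fun f => ¬ M e f)))
      (g := fun S => S.filter (fun f => ¬ M e f)) (fun S hS => mem_image_of_mem _ hS)]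
    apply Finset.sum_nonneg
    intro O hO
    obtain ⟨S0, hS0, hS0O⟩ := mem_image.1 hO
    obtain ⟨hS0H, hS0M, hS0c⟩ := mem_mm.1 hS0
    have hOM : ∀ g ∈ O, ¬ M e g := fun g hg => by
      rw [← hS0O] at hg; exact (mem_filter.1 hg).2
    have hOS : O ⊆ S0 := by rw [← hS0O]; exact filter_subset _ _
    have heO : e ∉ O := fun h => hOM e h (hrefl e)
    have hcard : ∀ S ∈ mm M H ν, S.filter (fun f => ¬ M e f) = O →
        (S.filter (M e)).card + O.card = ν := by
      intro S hS hSO
      rw [← hSO, ← (mem_mm.1 hS).2.2]
      exact card_filter_add_card_filter_not (M e)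
    have hk0 := hcard S0 hS0 hS0O
    rcases Nat.lt_or_ge (S0.filter (M e)).card 2 with hk | hk
    · rcases Nat.eq_zero_or_pos (S0.filter (M e)).card with hz | hp
      · -- impossible
        exfalso
        have hall : ∀ f ∈ S0, ¬ M e f := by
          intro f hf hMf
          have : f ∈ S0.filter (M e) := mem_filter.2 ⟨hf, hMf⟩
          rw [card_eq_zero.1 hz] at this
          simp at this
        have heS : e ∉ S0 := fun h => hall e h (hrefl e)
        have h1 := hν (insert e S0) (insert_subset he hS0H) (by
          intro a ha b hb hab
          rcases mem_insert.1 ha with rfl | ha'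
          · rcases mem_insert.1 hb with rfl | hb'
            · exact absurd rfl hab
            · exact hall b hb'
          · rcases mem_insert.1 hb with rfl | hb'
            · exact fun h => hall a ha' (hsymm _ _ h)
            · exact hS0M a ha' b hb' hab)
        rw [card_insert_of_notMem heS, hS0c] at h1
        omega
      · have hk1 : (S0.filter (M e)).card = 1 := by omega
        have hOc : O.card + 1 = ν := by omega
        set F : Finset α := H.filter (fun f => M e f ∧ ∀ g ∈ O, ¬ M f g) with hF
        have hFO : ∀ f ∈ F, f ∉ O := fun f hf hfO => hOM f hfO (mem_filter.1 hf).2.1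
        have hins : ∀ f ∈ F, insert f O ∈ mm M H ν := by
          intro f hf
          obtain ⟨hfH, hef, hfg⟩ := mem_filter.1 hf
          refine mem_mm.2 ⟨insert_subset hfH (hOS.trans hS0H), ?_, ?_⟩
          · intro a ha b hb hab
            rcases mem_insert.1 ha with rfl | ha'
            · rcases mem_insert.1 hb with rfl | hb'
              · exact absurd rfl hab
              · exact hfg b hb'
            · rcases mem_insert.1 hb with rfl | hb'
              · exact fun h => hfg a ha' (hsymm _ _ h)
              · exact hS0M a (hOS ha') b (hOS hb') hab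
          · rw [card_insert_of_notMem (hFO f hf), hOc]
        have hclique : ∀ a ∈ F, ∀ b ∈ F, M a b := by
          intro a ha b hb
          by_contra hab
          have hne : a ≠ b := by rintro rfl; exact hab (hrefl _)
          obtain ⟨haH, hea, hag⟩ := mem_filter.1 ha
          obtain ⟨hbH, heb, hbg⟩ := mem_filter.1 hb
          have h1 := hν (insert a (insert b O))
            (insert_subset haH (insert_subset hbH (hOS.trans hS0H))) (by
            intro x hx y hy hxy
            rcases mem_insert.1 hx with rfl | hx'
            · rcases mem_insert.1 hy with rfl | hy'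
              · exact absurd rfl hxy
              · rcases mem_insert.1 hy' with rfl | hy''
                · exact hab
                · exact hag y hy''
            · rcases mem_insert.1 hx' with rfl | hx''
              · rcases mem_insert.1 hy with rfl | hy'
                · exact fun h => hab (hsymm _ _ h)
                · rcases mem_insert.1 hy' with rfl | hy''
                  · exact absurd rfl hxy
                  · exact hbg y hy''
              · rcases mem_insert.1 hy with rfl | hy'
                · exact fun h => hag x hx'' (hsymm _ _ h)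
                · rcases mem_insert.1 hy' with rfl | hy''
                  · exact fun h => hbg x hx'' (hsymm _ _ h)
                  · exact hS0M x (hOS hx'') y (hOS hy'') hxy)
          rw [card_insert_of_notMem, card_insert_of_notMem (hFO b hb)] at h1
          · omega
          · simp only [mem_insert, not_or]
            exact ⟨hne, hFO a ha⟩
        have hwF := hc F (filter_subset _ _) hclique
        have hfib : (mm M H ν).filter (fun S => S.filter (fun f => ¬ M e f) = O) =
            F.image (fun f => insert f O) := by
          ext S
          rw [mem_filter, mem_image]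
          constructor
          · rintro ⟨hS, hSO⟩
            have hc1 : (S.filter (M e)).card = 1 := by
              have := hcard S hS hSO; omega
            obtain ⟨f, hf⟩ := card_eq_one.1 hc1
            have hfS : f ∈ S.filter (M e) := by rw [hf]; simp
            obtain ⟨hfS1, hfe⟩ := mem_filter.1 hfS
            obtain ⟨hSH, hSM, hSc⟩ := mem_mm.1 hS
            refine ⟨f, mem_filter.2 ⟨hSH hfS1, hfe, ?_⟩, ?_⟩
            · intro g hg
              have hgS : g ∈ S := by
                rw [← hSO] at hg; exact (mem_filter.1 hg).1
              exact hSM f hfS1 g hgS (by rintro rfl; exact hOM f hg hfe)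
            · have : S = S.filter (M e) ∪ S.filter (fun f => ¬ M e f) :=
                (filter_union_filter_not_eq (M e) S).symm
              rw [this, hf, hSO]
              rfl
          · rintro ⟨f, hf, rfl⟩
            refine ⟨hins f hf, ?_⟩
            rw [filter_insert, if_neg (by simpa using (mem_filter.1 hf).2.1)]
            exact filter_true_of_mem hOM
        have hinj : Set.InjOn (fun f => insert f O) (F : Set α) := by
          intro a ha b hb hab
          simp only at hab
          have : a ∈ insert b O := by rw [← hab]; exact mem_insert_self _ _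
          rcases mem_insert.1 this with h | h
          · exact h
          · exact absurd h (hFO a ha)
        have heF : e ∈ F := mem_filter.2 ⟨he, hrefl e, hOM⟩
        rw [hfib, sum_image hinj]
        have hterm : ∀ f ∈ F, ((∏ g ∈ insert f O, w g) *
            (w e * (((insert f O).filter (M e)).card : ℝ) - 2 * w e) +
            if e ∈ insert f O then c * ∏ g ∈ insert f O, w g else 0) =
            - (w e * (∏ g ∈ O, w g)) * w f +
              if f = e then c * (w e * ∏ g ∈ O, w g) else 0 := by
          intro f hf
          have hcf : ((insert f O).filter (M e)).card = 1 := by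
            have h1 := hcard (insert f O) (hins f hf) (by
              rw [filter_insert, if_neg (by simpa using (mem_filter.1 hf).2.1)]
              exact filter_true_of_mem hOM)
            omega
          rw [hcf, prod_insert (hFO f hf)]
          by_cases hfe : f = e
          · subst hfe
            rw [if_pos (mem_insert_self _ _), if_pos rfl]
            push_cast
            ring
          · rw [if_neg (by
              simp only [mem_insert, not_or]
              exact ⟨fun h => hfe h.symm, heO⟩), if_neg hfe]
            push_cast
            ring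
        rw [sum_congr rfl hterm, sum_add_distrib, ← mul_sum, sum_ite_eq' F e, if_pos heF]
        have h2 := mul_le_mul_of_nonneg_left hwF (mul_nonneg (hw e) (hπ O))
        nlinarith [h2]
    · apply Finset.sum_nonneg
      intro S hS
      obtain ⟨hS, hSO⟩ := mem_filter.1 hS
      have h1 : 2 ≤ (S.filter (M e)).card := by
        have := hcard S hS hSO; omega
      have h2 : (2 : ℝ) ≤ ((S.filter (M e)).card : ℝ) := by exact_mod_cast h1
      have h3 : 0 ≤ (∏ f ∈ S, w f) * (w e * ((S.filter (M e)).card : ℝ) - 2 * w e) := by
        apply mul_nonneg (hπ S)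
        nlinarith [hw e]
      have h4 : (0 : ℝ) ≤ if e ∈ S then c * ∏ f ∈ S, w f else 0 := by
        split_ifs
        · exact mul_nonneg hc0 (hπ S)
        · exact le_rfl
      linarith
  rw [sum_add_distrib, ← sum_filter] at key
  have e1 : ∑ S ∈ mm M H ν, (∏ f ∈ S, w f) * (w e * ((S.filter (M e)).card : ℝ) - 2 * w e) =
      w e * ∑ S ∈ mm M H ν, (∏ f ∈ S, w f) * ((S.filter (M e)).card : ℝ) -
      2 * w e * ∑ S ∈ mm M H ν, ∏ f ∈ S, w f := by
    rw [mul_sum, mul_sum, ← sum_sub_distrib]
    exact sum_congr rfl (fun S _ => by ring)
  rw [e1, ← mul_sum] at key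
  linarith

end H53.RY
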