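import Pool.Agent.H53.RY.Aes

/-!
From the bounds on fractional matchings to the statements about Ryser hypergraphs.
-/

set_option autoImplicit false

namespace H53.RY

open Finset

variable {r : ℕ}

/-- the set of sizes of covers -/
def covs (H : Finset (Fin r → ℕ)) : Set ℕ :=
  {k : ℕ | ∃ C : Finset (Fin r × ℕ), C.card = k ∧ ∀ e ∈ H, ∃ i, (i, e i) ∈ C}

/-- the set of sizes of matchings -/
def mats (H : Finset (Fin r → ℕ)) : Set ℕ :=
  {k : ℕ | ∃ M : Finset (Fin r → ℕ), M ⊆ H ∧ M.card = k ∧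
    ∀ e ∈ M, ∀ f ∈ M, e ≠ f → ∀ i, e i ≠ f i}

theorem covs_nonempty (hr : 0 < r) (H : Finset (Fin r → ℕ)) : (covs H).Nonempty :=
  ⟨_, H.image (fun e => ((⟨0, hr⟩ : Fin r), e ⟨0, hr⟩)), rfl,
    fun e he => ⟨⟨0, hr⟩, mem_image.2 ⟨e, he, rfl⟩⟩⟩

theorem sSup_mats (H : Finset (Fin r → ℕ)) : sSup (mats H) = nu H := by
  apply le_antisymm
  · apply csSup_le (⟨0, ∅, by simp, by simp, by simp⟩ : (mats H).Nonempty)
    rintro k ⟨M, hM, rfl, h⟩
    exact le_nu hM (fun a ha b hb hab hm => by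
      obtain ⟨i, hi⟩ := hm
      exact h a ha b hb hab i hi)
  · obtain ⟨S, hS, hM, hc⟩ := exists_nu H
    refine le_csSup ⟨H.card, ?_⟩ ⟨S, hS, hc, fun a ha b hb hab i hi => hM a ha b hb hab ⟨i, hi⟩⟩
    rintro k ⟨M, hM, rfl, _⟩
    exact card_le_card hM

theorem sInf_covs_empty : sInf (covs (∅ : Finset (Fin r → ℕ))) = 0 := by
  have h : (0 : ℕ) ∈ covs (∅ : Finset (Fin r → ℕ)) := ⟨∅, by simp, by simp⟩
  exact Nat.le_zero.1 (Nat.sInf_le h)

theorem sInf_covs_erase (hr : 0 < r) (H : Finset (Fin r → ℕ)) (e : Fin r → ℕ) :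
    sInf (covs H) ≤ sInf (covs (H.erase e)) + 1 := by
  obtain ⟨C, hC, h⟩ := Nat.sInf_mem (covs_nonempty hr (H.erase e))
  rw [← hC]
  have h1 : (insert ((⟨0, hr⟩ : Fin r), e ⟨0, hr⟩) C).card ∈ covs H := by
    refine ⟨_, rfl, fun f hf => ?_⟩
    by_cases hfe : f = e
    · subst hfe
      exact ⟨⟨0, hr⟩, mem_insert_self _ _⟩
    · obtain ⟨i, hi⟩ := h f (mem_erase.2 ⟨hfe, hf⟩)
      exact ⟨i, mem_insert_of_mem hi⟩
  exact (Nat.sInf_le h1).trans (card_insert_le _ _)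

theorem exists_exact (hr : 2 ≤ r) : ∀ n : ℕ, ∀ F : Finset (Fin r → ℕ), F.card ≤ n →
    r - 1 ≤ sInf (covs F) → ∃ F' ⊆ F, sInf (covs F') = r - 1 := by
  intro n
  induction n with
  | zero =>
    intro F hF h
    rw [card_eq_zero.1 (Nat.le_zero.1 hF), sInf_covs_empty] at h
    omega
  | succ n ih =>
    intro F hF h
    by_cases h1 : sInf (covs F) = r - 1
    · exact ⟨F, Subset.refl _, h1⟩
    · have hne : F.Nonempty := by
        by_contra hne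
        rw [not_nonempty_iff_eq_empty.1 hne, sInf_covs_empty] at h
        omega
      obtain ⟨e, he⟩ := hne
      have h2 := sInf_covs_erase (by omega : 0 < r) F e
      obtain ⟨F', hF', h3⟩ := ih (F.erase e) (by rw [card_erase_of_mem he]; omega) (by omega)
      exact ⟨F', hF'.trans (erase_subset _ _), h3⟩

theorem exists_of_not_RF (hr : 2 ≤ r) (H : Finset (Fin r → ℕ)) (h : ¬ RF (r - 2) H) :
    ∃ H' : Finset (Fin r → ℕ), H' ⊆ H ∧ H'.Nonempty ∧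
        (∀ e ∈ H', ∀ f ∈ H', ∃ i, e i = f i) ∧ sInf (covs H') = r - 1 := by
  unfold RF at h
  push Not at h
  obtain ⟨F, hF, hint, hC⟩ := h
  have h1 : r - 1 ≤ sInf (covs F) := by
    obtain ⟨C, hCc, hCF⟩ := Nat.sInf_mem (covs_nonempty (by omega : 0 < r) F)
    by_contra hlt
    obtain ⟨e, he, hn⟩ := hC C (by omega)
    obtain ⟨i, hi⟩ := hCF e he
    exact hn i hi
  obtain ⟨F', hF', h2⟩ := exists_exact hr F.card F le_rfl h1
  refine ⟨F', hF'.trans hF, ?_, fun e he f hf => hint e (hF' he) f (hF' hf), h2⟩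
  by_contra hne
  rw [not_nonempty_iff_eq_empty.1 hne, sInf_covs_empty] at h2
  omega

/-- Part A. -/
theorem partA (hr : 3 ≤ r) (H : Finset (Fin r → ℕ)) (w : (Fin r → ℕ) → ℝ) (hw : FM H w)
    (hbig : (2 * (r : ℝ) ^ 2 - 4 * r + 3) / (2 * r - 1) * sSup (mats H) < ∑ e ∈ H, w e) :
    ∃ H' : Finset (Fin r → ℕ), H' ⊆ H ∧ H'.Nonempty ∧
        (∀ e ∈ H', ∀ f ∈ H', ∃ i, e i = f i) ∧ sInf (covs H') = r - 1 := by
  apply exists_of_not_RF (by omega)
  intro hRF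
  have := boundA hr H.card H le_rfl hRF w hw
  rw [sSup_mats] at hbig
  unfold rho at this
  linarith

/-- Part B. -/
theorem partB (hr : 2 ≤ r) (H : Finset (Fin r → ℕ)) (w : (Fin r → ℕ) → ℝ) (hw : FM H w)
    (h1 : ((r : ℝ) - 2) * sSup (mats H) < ∑ e ∈ H, w e)
    (h2 : (sSup (mats H) - 1 / 3 : ℝ) * r < ∑ e ∈ H, w e) :
    ∃ H' : Finset (Fin r → ℕ), H' ⊆ H ∧ H'.Nonempty ∧
        (∀ e ∈ H', ∀ f ∈ H', ∃ i, e i = f i) ∧ sInf (covs H') = r - 1 := by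
  apply exists_of_not_RF (by omega)
  intro hRF
  rw [sSup_mats] at h1 h2
  have := boundB hr H hRF w hw h2
  linarith

/-- Q1 when the linear programming bound, rounded up, is exact. -/
theorem partC (r : ℕ) (H : Finset (Fin r → ℕ)) (w : (Fin r → ℕ) → ℝ) (hw : FM H w)
    (hrν : (9 ≤ r ∧ 2 ≤ sSup (mats H)) ∨ (5 ≤ r ∧ 3 ≤ sSup (mats H)) ∨
      (4 ≤ r ∧ 4 ≤ sSup (mats H)) ∨ (3 ≤ r ∧ 5 ≤ sSup (mats H)))
    (hbig : ((r : ℝ) - 1) * sSup (mats H) - 1 < ∑ e ∈ H, w e) :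
    ∃ H' : Finset (Fin r → ℕ), H' ⊆ H ∧ H'.Nonempty ∧
        (∀ e ∈ H', ∀ f ∈ H', ∃ i, e i = f i) ∧ sInf (covs H') = r - 1 := by
  have key : ∀ n : ℕ, 3 ≤ r → 2 * r - 1 ≤ n * (r - 2) → n ≤ sSup (mats H) →
      ∃ H' : Finset (Fin r → ℕ), H' ⊆ H ∧ H'.Nonempty ∧
        (∀ e ∈ H', ∀ f ∈ H', ∃ i, e i = f i) ∧ sInf (covs H') = r - 1 := by
    intro n hr hn hle
    apply partA hr H w hw
    refine lt_of_le_of_lt ?_ hbig
    have hr' : (3 : ℝ) ≤ r := by exact_mod_cast hr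
    have h1 : (2 * (r : ℝ) - 1) ≤ n * (r - 2) := by
      have : 2 * r ≤ n * (r - 2) + 1 := by omega
      have h2 : ((2 * r : ℕ) : ℝ) ≤ ((n * (r - 2) + 1 : ℕ) : ℝ) := by exact_mod_cast this
      push_cast [Nat.cast_sub (by omega : 2 ≤ r)] at h2
      linarith
    have h2 : (n : ℝ) ≤ sSup (mats H) := by exact_mod_cast hle
    have h3 : (2 * (r : ℝ) - 1) ≤ (sSup (mats H) : ℕ) * (r - 2) :=
      h1.trans (mul_le_mul_of_nonneg_right h2 (by linarith))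
    rw [div_mul_eq_mul_div, div_le_iff₀ (by linarith)]
    nlinarith
  rcases hrν with ⟨hr, hν⟩ | ⟨hr, hν⟩ | ⟨hr, hν⟩ | ⟨hr, hν⟩
  · by_cases h3 : 3 ≤ sSup (mats H)
    · exact key 3 (by omega) (by omega) h3
    · have h2 : sSup (mats H) = 2 := by omega
      have hr' : (9 : ℝ) ≤ r := by exact_mod_cast hr
      apply partB (by omega) H w hw
      · rw [h2] at hbig ⊢
        push_cast at hbig ⊢
        linarith
      · rw [h2] at hbig ⊢
        push_cast at hbig ⊢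
        linarith
  · exact key 3 (by omega) (by omega) hν
  · exact key 4 (by omega) (by omega) hν
  · exact key 5 hr (by omega) hν

end H53.RY
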